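import Pool.Agent.W845.GL.Stm

set_option autoImplicit false

namespace Pool.Agent.W61.GL

open Pool.Agent.W845.GL Finset

theorem evp (P : Polynomial ℝ) (v : Fin 2 → ℝ) (i : Fin 2) :
    MvPolynomial.eval v (Polynomial.aeval (MvPolynomial.X i : MvPolynomial (Fin 2) ℝ) P) =
      P.eval (v i) := by
  rw [Polynomial.aeval_def, Polynomial.hom_eval₂]
  have h : (MvPolynomial.eval v).comp (algebraMap ℝ (MvPolynomial (Fin 2) ℝ)) = RingHom.id ℝ := by
    ext x
    simp
  rw [h, MvPolynomial.eval_X]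
  rfl

theorem sumF (g : ℕ → ℝ) (i N : ℕ) (h : N ≤ i) :
    ∑ j : Fin i, (if (j : ℕ) < N then g j else 0) = ∑ j ∈ range N, g j := by
  rw [Fin.sum_univ_eq_sum_range (fun j => if j < N then g j else 0) i]
  symm
  rw [← Finset.sum_subset (Finset.range_subset_range.2 h)
    (f := fun j => if j < N then g j else 0)]
  · refine Finset.sum_congr rfl fun j hj => ?_
    rw [if_pos (Finset.mem_range.1 hj)]
  · intro j _ hj
    rw [Finset.mem_range] at hj
    simp only [if_neg hj]

theorem prodB (ε a b s t : ℝ) (h0 : 0 ≤ ε) (h1 : ε ≤ 1) (hs : |s| = 1) (ht : |t| = 1)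
    (ha : |a - s| ≤ ε) (hb : |b - t| ≤ ε) : |a * b - s * t| ≤ 3 * ε := by
  have h2 : a * b - s * t = (a - s) * (b - t) + (a - s) * t + s * (b - t) := by ring
  rw [h2]
  refine (abs_add_three _ _ _).trans ?_
  rw [abs_mul, abs_mul, abs_mul, hs, ht, mul_one, one_mul]
  have h3 : |a - s| * |b - t| ≤ ε * 1 :=
    mul_le_mul ha (hb.trans h1) (abs_nonneg _) h0
  linarith

theorem sgabs (r : Bool) : |sg r| = 1 := by
  unfold sg
  cases r <;> simp

theorem pn : S_T0 → S_BP → S_VB → S_MU → S_MK → S_PN := by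
  intro hT0 hBP hVB hMU hMK N hN
  obtain ⟨haa, -, -, -, hKK, -, -, -, -, -⟩ := hT0
  have hV1 : 1 ≤ VV N := hVB.1 N (by omega)
  obtain ⟨V, hV⟩ : ∃ V, V = VV N := ⟨_, rfl⟩
  rw [← hV] at hV1 ⊢
  have hV0 : 0 < V := by linarith
  have hNR : (4 : ℝ) ≤ N := by exact_mod_cast hN
  have hN0 : (0 : ℝ) < N := by linarith
  obtain ⟨ε, hε⟩ : ∃ ε : ℝ, ε = 1 / (3 * (N : ℝ) ^ 2) := ⟨_, rfl⟩
  have hε0 : 0 < ε := by rw [hε]; positivity
  have hε1 : ε ≤ 1 := by
    rw [hε, div_le_one (by positivity)]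
    nlinarith
  have hε3 : 3 * ε = 1 / (N : ℝ) ^ 2 := by
    rw [hε]
    field_simp
  choose P hP using fun J => hBP J ε hε0
  obtain ⟨q, hq⟩ : ∃ q : MvPolynomial (Fin 2) ℝ, q = ∑ j ∈ range N,
      MvPolynomial.C (aa j / V) * Polynomial.aeval (MvPolynomial.X 0) (P j) *
        Polynomial.aeval (MvPolynomial.X 1) (P j) := ⟨_, rfl⟩
  have hqe : ∀ s t : ℝ, MvPolynomial.eval ![s, t] q =
      ∑ j ∈ range N, aa j / V * (P j).eval s * (P j).eval t := by
    intro s t
    rw [hq, map_sum]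
    refine Finset.sum_congr rfl fun j _ => ?_
    rw [map_mul, map_mul, MvPolynomial.eval_C, evp, evp]
    rfl
  have hmain : ∀ (i : ℕ), N ≤ i → ∀ x y : Fin i → Bool,
      |MvPolynomial.eval ![DD i x, DD i y] q - TT i N x y / V| ≤ 1 / (N : ℝ) := by
    intro i hi x y
    rw [hqe, ← sumF _ i N hi]
    unfold TT
    rw [Finset.sum_div, ← Finset.sum_sub_distrib]
    have h1 : ∀ j : Fin i, |(if (j : ℕ) < N then aa j / V * (P j).eval (DD i x) *
        (P j).eval (DD i y) else 0) - (if (j : ℕ) < N then aa j * sg (x j) * sg (y j) else 0) / V|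
        ≤ (if (j : ℕ) < N then 1 / (N : ℝ) ^ 2 else 0) := by
      intro j
      by_cases hj : (j : ℕ) < N
      · simp only [if_pos hj]
        have h2 : aa j / V * (P j).eval (DD i x) * (P j).eval (DD i y) -
            aa j * sg (x j) * sg (y j) / V = (aa j / V) * ((P j).eval (DD i x) *
              (P j).eval (DD i y) - sg (x j) * sg (y j)) := by ring
        rw [h2, abs_mul, ← hε3]
        have h3 : |aa j / V| ≤ 1 := by
          rw [abs_of_nonneg (div_nonneg (haa j).1.le hV0.le), div_le_one hV0]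
          exact (haa j).2.trans hV1
        have h4 := prodB ε _ _ _ _ hε0.le hε1 (sgabs (x j)) (sgabs (y j))
          (hP j i j.2 x) (hP j i j.2 y)
        have h5 := mul_le_mul h3 h4 (abs_nonneg _) zero_le_one
        rw [one_mul] at h5
        exact h5
      · simp only [if_neg hj]
        simp
    refine (Finset.abs_sum_le_sum_abs _ _).trans ?_
    refine (Finset.sum_le_sum fun j _ => h1 j).trans ?_
    rw [sumF (fun _ => 1 / (N : ℝ) ^ 2) i N hi, Finset.sum_const, Finset.card_range, nsmul_eq_mul]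
    apply le_of_eq
    field_simp
  have hsq : ∀ (i : ℕ), N ≤ i → ∀ x y : Fin i → Bool,
      MvPolynomial.eval ![DD i x, DD i y] (q ^ 2) ≤
        2 / V ^ 2 * TT i N x y ^ 2 + 2 / (N : ℝ) ^ 2 := by
    intro i hi x y
    have h1 := hmain i hi x y
    rw [map_pow]
    have h2 : (MvPolynomial.eval ![DD i x, DD i y] q - TT i N x y / V) ^ 2 ≤
        (1 / (N : ℝ)) ^ 2 := by
      rw [← sq_abs]
      exact pow_le_pow_left₀ (abs_nonneg _) h1 2
    have h3 : 2 / V ^ 2 * TT i N x y ^ 2 = 2 * (TT i N x y / V) ^ 2 := by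
      field_simp
    have h4 : 2 / (N : ℝ) ^ 2 = 2 * (1 / (N : ℝ)) ^ 2 := by
      field_simp
    rw [h3, h4]
    nlinarith [sq_nonneg (MvPolynomial.eval ![DD i x, DD i y] q - 2 * (TT i N x y / V))]
  refine ⟨q, fun i hi => ?_⟩
  have h4i : (0 : ℝ) < (4 : ℝ) ^ i := by positivity
  have hcard : ∑ _x : Fin i → Bool, ∑ _y : Fin i → Bool, (1 : ℝ) = (4 : ℝ) ^ i := by
    simp only [Finset.sum_const, Finset.card_univ, Fintype.card_fun, Fintype.card_bool,
      Fintype.card_fin, nsmul_eq_mul, mul_one]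
    push_cast
    rw [← mul_pow]
    norm_num
  obtain ⟨hM0, hM1, hM2⟩ := hMK i N hi
  have hMu := hMU i N hi
  rw [← hV] at hM1 hM2 hMu
  refine ⟨?_, ?_, ?_⟩
  · unfold EU
    have h1 : ∑ x : Fin i → Bool, ∑ y : Fin i → Bool,
        MvPolynomial.eval ![DD i x, DD i y] (q ^ 2) ≤
        2 / V ^ 2 * (∑ x : Fin i → Bool, ∑ y : Fin i → Bool, TT i N x y ^ 2) +
          2 / (N : ℝ) ^ 2 * (4 : ℝ) ^ i := by
      rw [← hcard, Finset.mul_sum, Finset.mul_sum, ← Finset.sum_add_distrib]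
      refine Finset.sum_le_sum fun x _ => ?_
      rw [Finset.mul_sum, Finset.mul_sum, ← Finset.sum_add_distrib]
      refine Finset.sum_le_sum fun y _ => ?_
      rw [mul_one]
      exact hsq i hi x y
    refine (div_le_div_of_nonneg_right h1 h4i.le).trans ?_
    rw [add_div, mul_div_assoc, hMu, mul_div_assoc, div_self h4i.ne', mul_one]
    apply le_of_eq
    field_simp
  · unfold EK
    have h1 : ∑ x : Fin i → Bool, ∑ y : Fin i → Bool,
        KK i x y * MvPolynomial.eval ![DD i x, DD i y] (q ^ 2) ≤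
        2 / V ^ 2 * (∑ x : Fin i → Bool, ∑ y : Fin i → Bool, KK i x y * TT i N x y ^ 2) +
          2 / (N : ℝ) ^ 2 * (∑ x : Fin i → Bool, ∑ y : Fin i → Bool, KK i x y) := by
      rw [Finset.mul_sum, Finset.mul_sum, ← Finset.sum_add_distrib]
      refine Finset.sum_le_sum fun x _ => ?_
      rw [Finset.mul_sum, Finset.mul_sum, ← Finset.sum_add_distrib]
      refine Finset.sum_le_sum fun y _ => ?_
      have h2 := mul_le_mul_of_nonneg_left (hsq i hi x y) (hKK i x y).1
      refine h2.trans (le_of_eq ?_)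
      ring
    refine (div_le_div_of_nonneg_right h1 h4i.le).trans ?_
    rw [add_div, mul_div_assoc, mul_div_assoc]
    have h3 : 2 / V ^ 2 * ((∑ x : Fin i → Bool, ∑ y : Fin i → Bool, KK i x y * TT i N x y ^ 2) /
        (4 : ℝ) ^ i) ≤ 2 / V ^ 2 * (2 * (V + (V + 1) ^ 2)) :=
      mul_le_mul_of_nonneg_left hM2 (by positivity)
    have h4 : 2 / (N : ℝ) ^ 2 * ((∑ x : Fin i → Bool, ∑ y : Fin i → Bool, KK i x y) /
        (4 : ℝ) ^ i) ≤ 2 / (N : ℝ) ^ 2 * 2 :=
      mul_le_mul_of_nonneg_left hM0 (by positivity)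
    have h5 : 2 / V ^ 2 * (2 * (V + (V + 1) ^ 2)) ≤ 20 := by
      rw [div_mul_eq_mul_div, div_le_iff₀ (by positivity)]
      nlinarith
    have h6 : 2 / (N : ℝ) ^ 2 * 2 ≤ 1 := by
      rw [div_mul_eq_mul_div, div_le_iff₀ (by positivity)]
      nlinarith
    linarith
  · unfold EK
    have h1 : 1 / V * (∑ x : Fin i → Bool, ∑ y : Fin i → Bool, KK i x y * TT i N x y) -
          1 / (N : ℝ) * (∑ x : Fin i → Bool, ∑ y : Fin i → Bool, KK i x y) ≤
        ∑ x : Fin i → Bool, ∑ y : Fin i → Bool,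
        KK i x y * MvPolynomial.eval ![DD i x, DD i y] q := by
      rw [Finset.mul_sum, Finset.mul_sum, ← Finset.sum_sub_distrib]
      refine Finset.sum_le_sum fun x _ => ?_
      rw [Finset.mul_sum, Finset.mul_sum, ← Finset.sum_sub_distrib]
      refine Finset.sum_le_sum fun y _ => ?_
      have h2 := (abs_le.1 (hmain i hi x y)).1
      have h3 : TT i N x y / V - 1 / (N : ℝ) ≤ MvPolynomial.eval ![DD i x, DD i y] q := by
        linarith
      have h4 := mul_le_mul_of_nonneg_left h3 (hKK i x y).1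
      refine le_trans (le_of_eq ?_) h4
      ring
    refine le_trans ?_ (div_le_div_of_nonneg_right h1 h4i.le)
    rw [sub_div, mul_div_assoc, mul_div_assoc]
    have h3 : 1 / V * V ≤ 1 / V * ((∑ x : Fin i → Bool, ∑ y : Fin i → Bool,
        KK i x y * TT i N x y) / (4 : ℝ) ^ i) :=
      mul_le_mul_of_nonneg_left hM1 (by positivity)
    have h4 : 1 / (N : ℝ) * ((∑ x : Fin i → Bool, ∑ y : Fin i → Bool, KK i x y) /
        (4 : ℝ) ^ i) ≤ 1 / (N : ℝ) * 2 :=
      mul_le_mul_of_nonneg_left hM0 (by positivity)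
    have h5 : 1 / V * V = 1 := by
      field_simp
    have h6 : 1 / (N : ℝ) * 2 ≤ 1 / 2 := by
      rw [div_mul_eq_mul_div, div_le_iff₀ (by positivity)]
      linarith
    linarith

end Pool.Agent.W61.GL
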